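import Pool.Agent.P.MP_ceb5ee_gt.HMain

open Pool.Agent.P.MP_ceb5ee_gt

/-- An Abelian Polish group is non-discrete if and only if it has a coanalytic null-finite set `A`
that meets every translate of some Cantor set in at most one point, such that no Borel superset
of `A` is null-finite or Haar-countable. -/
theorem Pool.Agent.Results.MP_ceb5ee_gt.HaarOne.result
    (X : Type) [AddCommGroup X] [TopologicalSpace X] [IsTopologicalAddGroup X] [PolishSpace X] :
    ¬ DiscreteTopology X ↔
      ∃ A : Set X, MeasureTheory.AnalyticSet Aᶜ ∧ NullFinite A ∧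
        (∃ g : (ℕ → Bool) → X, Continuous g ∧ Function.Injective g ∧
          ∀ x : X, {σ | x + g σ ∈ A}.Subsingleton) ∧
        ∀ B : Set X, @MeasurableSet X (borel X) B → A ⊆ B → ¬ NullFinite B ∧
          ∀ g : (ℕ → Bool) → X, Continuous g → ∃ x : X, ¬ {σ | x + g σ ∈ B}.Countable := by
  constructor
  · intro h
    obtain ⟨A, h1, ⟨g, h2, h3, h4⟩, h5⟩ := Haar.haar_main X h
    exact ⟨A, h1, Haar.nullFinite_of_cantor h2 h4, ⟨g, h2, h3, h4⟩, h5⟩
  · rintro ⟨A, -, h1, -, h2⟩ h
    exact (h2 A (MeasurableSpace.measurableSet_generateFrom (isOpen_discrete A))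
      Set.Subset.rfl).1 h1

/-- The instance for Q2: coanalytic null-finite sets have Borel null-finite supersets exactly in
discrete groups. -/
theorem Pool.Agent.Results.MP_ceb5ee_gt.HaarOne.question_two
    (X : Type) [AddCommGroup X] [TopologicalSpace X] [IsTopologicalAddGroup X] [PolishSpace X] :
    (∀ A : Set X, MeasureTheory.AnalyticSet Aᶜ → NullFinite A →
      ∃ B : Set X, @MeasurableSet X (borel X) B ∧ NullFinite B ∧ A ⊆ B) ↔ DiscreteTopology X := by
  refine ⟨fun h => by_contra fun hd => ?_, fun h A _ hA =>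
    ⟨A, MeasurableSpace.measurableSet_generateFrom (isOpen_discrete A), hA, Set.Subset.rfl⟩⟩
  obtain ⟨A, h1, h2, -, h3⟩ := (Pool.Agent.Results.MP_ceb5ee_gt.HaarOne.result X).1 hd
  obtain ⟨B, k1, k2, k3⟩ := h A h1 h2
  exact (h3 B k1 k3).1 k2
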